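import Pool.Agent.H61.HB.Stmts

set_option autoImplicit false

/-!
Row ADC of board hbg (helper12).
-/

namespace HB

namespace AdcAux

theorem nqS_le_nsq (hM : MMBStmt) (s : ℝ) (u : V) (j : Fin 2) : nqS s (u j) ≤ nsq s u := by
  have h0 := hM.1 s (u 0)
  have h1 := hM.1 s (u 1)
  unfold nsq
  rw [Fin.sum_univ_two]
  fin_cases j
  · change nqS s (u 0) ≤ _
    linarith
  · change nqS s (u 1) ≤ _
    linarith

theorem adv_sub (hL : LINStmt) (a b : V) (ha : Mem 2 a) (hb : Mem 2 b) (j : Fin 2) :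
    (adv a a - adv b b) j = dot (a - b) (a j) + dot b ((a - b) j) := by
  have h1 := hL.1 a b (a j) ha hb (ha j)
  have h2 := hL.2.1 b (a j) (b j) hb (ha j) (hb j)
  have h3 : (adv a a - adv b b) j = dot a (a j) - dot b (b j) := rfl
  have h4 : (a - b) j = a j - b j := rfl
  rw [h3, h4, h1, h2]
  abel

theorem adv_diff (hB : BILStmt) (hL : LINStmt) (hM : MMBStmt) (s : ℝ) (hs : 2 ≤ s) :
    ∃ C : ℝ, 0 < C ∧ ∀ a b : V, Mem s a → Mem s b →
      nsq (s - 2) (adv a a - adv b b) ≤ C * nsq s (a - b) * (nsq s (a - b) + nsq s b) := by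
  obtain ⟨C, hC, hb⟩ := hB s hs
  refine ⟨24 * C, by positivity, ?_⟩
  intro a b ha hbm
  have hab := (hM.2.2.2.2.2 s a b ha hbm).1
  have h2a := (hM.2.2.2.2.1 2 s a hs ha).1
  have h2b := (hM.2.2.2.2.1 2 s b hs hbm).1
  have h2ab := hM.2.2.2.2.1 2 s (a - b) hs hab
  set X := nsq s (a - b) with hX
  set B := nsq s b with hBd
  have hX0 : 0 ≤ X := hM.2.2.2.1 s (a - b)
  have hB0 : 0 ≤ B := hM.2.2.2.1 s b
  have hA : nsq s a ≤ 2 * X + 2 * B := by
    have h3 := (hM.2.2.2.2.2 s (a - b) b hab hbm).2.2.2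
    have h4 : a - b + b = a := by abel
    rw [h4] at h3
    exact h3
  have hj : ∀ j : Fin 2, nqS (s - 2) ((adv a a - adv b b) j) ≤
      12 * C * X * (X + B) := by
    intro j
    rw [adv_sub hL a b h2a h2b j]
    obtain ⟨_, hm1, hn1⟩ := hb (a - b) (a j) hab (ha j)
    obtain ⟨_, hm2, hn2⟩ := hb b ((a - b) j) hbm (hab j)
    have h5 := (hM.2.2.1 (s - 2) _ _ hm1 hm2).2.2.2
    have h6 : nqS 2 (a j) ≤ nqS s (a j) := (hM.2.1 2 s (a j) hs (ha j)).2
    have h7 : nqS s (a j) ≤ 2 * X + 2 * B := (nqS_le_nsq hM s a j).trans hA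
    have h8 : nqS 2 ((a - b) j) ≤ X :=
      ((hM.2.1 2 s ((a - b) j) hs (hab j)).2).trans (nqS_le_nsq hM s (a - b) j)
    have h9 : nqS s ((a - b) j) ≤ X := nqS_le_nsq hM s (a - b) j
    have h10 : nsq 2 (a - b) ≤ X := h2ab.2
    have h11 : nsq 2 b ≤ B := (hM.2.2.2.2.1 2 s b hs hbm).2
    have h12 : 0 ≤ nqS 2 (a j) := hM.1 _ _
    have h13 : 0 ≤ nqS s (a j) := hM.1 _ _
    have h14 : 0 ≤ nqS 2 ((a - b) j) := hM.1 _ _
    have h15 : 0 ≤ nqS s ((a - b) j) := hM.1 _ _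
    have h16 : 0 ≤ nsq 2 b := hM.2.2.2.1 _ _
    have h17 : 0 ≤ nsq 2 (a - b) := hM.2.2.2.1 _ _
    have e1 : nsq s (a - b) * nqS 2 (a j) ≤ X * (2 * X + 2 * B) :=
      mul_le_mul_of_nonneg_left (h6.trans h7) hX0
    have e2 : nsq 2 (a - b) * nqS s (a j) ≤ X * (2 * X + 2 * B) :=
      mul_le_mul h10 h7 h13 hX0
    have e3 : nsq s b * nqS 2 ((a - b) j) ≤ B * X := mul_le_mul_of_nonneg_left h8 hB0
    have e4 : nsq 2 b * nqS s ((a - b) j) ≤ B * X := mul_le_mul h11 h9 h15 hB0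
    have e5 : C * (nsq s (a - b) * nqS 2 (a j) + nsq 2 (a - b) * nqS s (a j)) ≤
        C * (X * (2 * X + 2 * B) + X * (2 * X + 2 * B)) :=
      mul_le_mul_of_nonneg_left (add_le_add e1 e2) hC.le
    have e6 : C * (nsq s b * nqS 2 ((a - b) j) + nsq 2 b * nqS s ((a - b) j)) ≤
        C * (B * X + B * X) := mul_le_mul_of_nonneg_left (add_le_add e3 e4) hC.le
    have e7 : nqS (s - 2) (dot (a - b) (a j) + dot b ((a - b) j)) ≤
        2 * (C * (X * (2 * X + 2 * B) + X * (2 * X + 2 * B))) + 2 * (C * (B * X + B * X)) := by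
      have f1 := hn1.trans e5
      have f2 := hn2.trans e6
      linarith
    refine e7.trans ?_
    have e8 : 12 * C * X * (X + B) -
        (2 * (C * (X * (2 * X + 2 * B) + X * (2 * X + 2 * B))) + 2 * (C * (B * X + B * X))) =
        4 * C * (X * X) := by ring
    have e9 : 0 ≤ 4 * C * (X * X) := by positivity
    linarith
  have h18 : nsq (s - 2) (adv a a - adv b b) =
      nqS (s - 2) ((adv a a - adv b b) 0) + nqS (s - 2) ((adv a a - adv b b) 1) := by
    unfold nsq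
    rw [Fin.sum_univ_two]
  rw [h18]
  have h19 := hj 0
  have h20 := hj 1
  have h21 : 24 * C * X * (X + B) = 12 * C * X * (X + B) + 12 * C * X * (X + B) := by ring
  rw [h21]
  exact add_le_add h19 h20

end AdcAux

theorem adc_thm (hB : BILStmt) (hL : LINStmt) (hM : MMBStmt) : ADCStmt := by
  intro s T u hs hu
  obtain ⟨hmem, hlim⟩ := hu
  obtain ⟨C, hC, hd⟩ := AdcAux.adv_diff hB hL hM s hs
  obtain ⟨C', _, hb⟩ := hB s hs
  refine ⟨?_, ?_⟩
  · intro t ht j
    exact (hb (u t) (u t j) (hmem t ht) (hmem t ht j)).2.1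
  · intro t ht
    have h1 := hlim t ht
    have h2 : Filter.Tendsto (fun r => C * nsq s (u r - u t) *
        (nsq s (u r - u t) + nsq s (u t))) (nhdsWithin t (Set.Icc 0 T)) (nhds 0) := by
      have h3 := (h1.const_mul C).mul (h1.add_const (nsq s (u t)))
      simpa using h3
    refine squeeze_zero' ?_ ?_ h2
    · exact Filter.Eventually.of_forall (fun r => hM.2.2.2.1 _ _)
    · filter_upwards [self_mem_nhdsWithin] with r hr
      exact hd (u r) (u t) (hmem r hr) (hmem t ht)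

end HB
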